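import Mathlib

/-!
# Monochromatic homogeneous sets for a coloured pair system with a transitive triple system

Let `P` be a finite subset of a linear order, let the pairs of elements be coloured with two
colours, and let `T` be a ternary relation such that `T` and its negation are transitive along
increasing quadruples.  If `P` has many elements then it contains an `(n + 2)`-element set all of
whose pairs have one colour and all of whose increasing triples are in `T`, or all of whose
increasing triples are not in `T`.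
-/

open Finset

namespace Run7.h416.HC

variable {α : Type*} [LinearOrder α]

/-- `A` is homogeneous: all increasing pairs have colour `c`, all increasing triples are in `τ`. -/
def Hom (χ : α → α → Bool) (c : Bool) (τ : α → α → α → Prop) (A : Finset α) : Prop :=
  (∀ a ∈ A, ∀ b ∈ A, a < b → χ a b = c) ∧
    ∀ a ∈ A, ∀ b ∈ A, ∀ d ∈ A, a < b → b < d → τ a b d

/-- There is a `k`-element set with last element `u` which stays homogeneous after adding any
single element of `S`, and all of whose elements precede `S`. -/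
def Ext (P : Finset α) (χ : α → α → Bool) (c : Bool) (τ : α → α → α → Prop) (k : ℕ) (u : α)
    (S : Finset α) : Prop :=
  ∃ A : Finset α, A ⊆ P ∧ A.card = k ∧ u ∈ A ∧ (∀ a ∈ A, a ≤ u) ∧ (∀ s ∈ S, u < s) ∧
    ∀ s ∈ S, Hom χ c τ (insert s A)

theorem Ext.mono {P : Finset α} {χ : α → α → Bool} {c : Bool} {τ : α → α → α → Prop} {k : ℕ}
    {u : α} {S S' : Finset α} (h : Ext P χ c τ k u S) (hS : S' ⊆ S) : Ext P χ c τ k u S' := by
  obtain ⟨A, hA, hk, hu, hle, hlt, hh⟩ := h
  exact ⟨A, hA, hk, hu, hle, fun s hs => hlt s (hS hs), fun s hs => hh s (hS hs)⟩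

theorem ext_one {P : Finset α} {χ : α → α → Bool} {c : Bool} {τ : α → α → α → Prop} {v : α}
    {S : Finset α} (hv : v ∈ P) (hS : ∀ s ∈ S, v < s ∧ χ v s = c) : Ext P χ c τ 1 v S := by
  refine ⟨{v}, by simpa using hv, by simp, by simp, by simp, fun s hs => (hS s hs).1, ?_⟩
  intro s hs
  obtain ⟨hlt, hc⟩ := hS s hs
  refine ⟨?_, ?_⟩
  · intro a ha b hb hab
    simp only [mem_insert, mem_singleton] at ha hb
    rcases ha with rfl | rfl <;> rcases hb with rfl | rfl
    · exact absurd hab (lt_irrefl _)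
    · exact absurd (hab.trans hlt) (lt_irrefl _)
    · exact hc
    · exact absurd hab (lt_irrefl _)
  · intro a ha b hb d hd hab hbd
    exfalso
    simp only [mem_insert, mem_singleton] at ha hb hd
    rcases ha with rfl | rfl <;> rcases hb with rfl | rfl <;> rcases hd with rfl | rfl <;>
      first
      | exact lt_irrefl _ hab
      | exact lt_irrefl _ hbd
      | exact lt_irrefl _ (hab.trans hbd)

theorem ext_step {P : Finset α} {χ : α → α → Bool} {c : Bool} {τ : α → α → α → Prop} {k : ℕ}
    {u v : α} {S S' : Finset α} (hSP : S ⊆ P)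
    (hτ : ∀ a ∈ P, ∀ b ∈ P, ∀ x ∈ P, ∀ y ∈ P, a < b → b < x → x < y → τ a b x → τ b x y →
      τ a x y)
    (h : Ext P χ c τ k u S) (hv : v ∈ S) (hS' : S' ⊆ S)
    (hs' : ∀ s ∈ S', v < s ∧ χ v s = c ∧ τ u v s) : Ext P χ c τ (k + 1) v S' := by
  obtain ⟨A, hA, hk, hu, hle, hlt, hh⟩ := h
  have huv : u < v := hlt v hv
  have hvA : v ∉ A := fun hvA => absurd (hle v hvA) (not_le.mpr huv)
  have hAv : ∀ a ∈ A, a < v := fun a ha => lt_of_le_of_lt (hle a ha) huv
  refine ⟨insert v A, ?_, ?_, mem_insert_self _ _, ?_, fun s hs => (hs' s hs).1, ?_⟩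
  · exact insert_subset (hSP hv) hA
  · rw [card_insert_of_notMem hvA, hk]
  · intro a ha
    rcases mem_insert.mp ha with rfl | ha
    · exact le_rfl
    · exact (hAv a ha).le
  · intro s hs
    obtain ⟨hvs, hcs, hts⟩ := hs' s hs
    obtain ⟨hp1, ht1⟩ := hh v hv
    obtain ⟨hp2, ht2⟩ := hh s (hS' hs)
    have hAs : ∀ a ∈ A, a < s := fun a ha => (hAv a ha).trans hvs
    -- triples `(a, v, s)`
    have key : ∀ a ∈ A, τ a v s := by
      intro a ha
      rcases (hle a ha).lt_or_eq with hau | rfl
      · exact hτ a (hA ha) u (hA hu) v (hSP hv) s (hSP (hS' hs)) hau huv hvs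
          (ht1 a (mem_insert_of_mem ha) u (mem_insert_of_mem hu) v (mem_insert_self _ _) hau huv)
          hts
      · exact hts
    refine ⟨?_, ?_⟩
    · intro a ha b hb hab
      simp only [mem_insert] at ha hb
      rcases hb with rfl | rfl | hb
      · rcases ha with rfl | rfl | ha
        · exact absurd hab (lt_irrefl _)
        · exact hcs
        · exact hp2 a (mem_insert_of_mem ha) _ (mem_insert_self _ _) hab
      · rcases ha with rfl | rfl | ha
        · exact absurd (hab.trans hvs) (lt_irrefl _)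
        · exact absurd hab (lt_irrefl _)
        · exact hp1 a (mem_insert_of_mem ha) _ (mem_insert_self _ _) hab
      · rcases ha with rfl | rfl | ha
        · exact absurd (hab.trans (hAs b hb)) (lt_irrefl _)
        · exact absurd (hab.trans (hAv b hb)) (lt_irrefl _)
        · exact hp1 a (mem_insert_of_mem ha) b (mem_insert_of_mem hb) hab
    · intro a ha b hb d hd hab hbd
      simp only [mem_insert] at ha hb hd
      -- `a` is in `A`, since two elements of the set are above it
      have haA : a ∈ A := by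
        rcases ha with rfl | rfl | ha
        · exfalso
          rcases hb with rfl | rfl | hb
          · exact lt_irrefl _ hab
          · exact lt_irrefl _ (hab.trans hvs)
          · exact lt_irrefl _ (hab.trans (hAs b hb))
        · exfalso
          rcases hb with rfl | rfl | hb
          · rcases hd with rfl | rfl | hd
            · exact lt_irrefl _ hbd
            · exact lt_irrefl _ (hbd.trans hab)
            · exact lt_irrefl _ (hbd.trans (hAs d hd))
          · exact lt_irrefl _ hab
          · exact lt_irrefl _ (hab.trans (hAv b hb))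
        · exact ha
      rcases hb with rfl | rfl | hb
      · exfalso
        rcases hd with rfl | rfl | hd
        · exact lt_irrefl _ hbd
        · exact lt_irrefl _ (hbd.trans hvs)
        · exact lt_irrefl _ (hbd.trans (hAs d hd))
      · rcases hd with rfl | rfl | hd
        · exact key a haA
        · exact absurd hbd (lt_irrefl _)
        · exact absurd (hbd.trans (hAv d hd)) (lt_irrefl _)
      · rcases hd with rfl | rfl | hd
        · exact ht2 a (mem_insert_of_mem haA) b (mem_insert_of_mem hb) _ (mem_insert_self _ _)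
            hab hbd
        · exact ht1 a (mem_insert_of_mem haA) b (mem_insert_of_mem hb) _ (mem_insert_self _ _)
            hab hbd
        · exact ht1 a (mem_insert_of_mem haA) b (mem_insert_of_mem hb) d (mem_insert_of_mem hd)
            hab hbd

theorem Ext.finish {P : Finset α} {χ : α → α → Bool} {c : Bool} {τ : α → α → α → Prop} {k : ℕ}
    {u : α} {S : Finset α} (h : Ext P χ c τ k u S) (hSP : S ⊆ P) (hS : S.Nonempty) :
    ∃ B ⊆ P, B.card = k + 1 ∧ Hom χ c τ B := by
  obtain ⟨A, hA, hk, hu, hle, hlt, hh⟩ := h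
  obtain ⟨s, hs⟩ := hS
  have hsA : s ∉ A := fun hsA => absurd (hle s hsA) (not_le.mpr (hlt s hs))
  exact ⟨insert s A, insert_subset (hSP hs) hA, by rw [card_insert_of_notMem hsA, hk], hh s hs⟩

/-- The sizes `H q 0 = 1`, `H q (m + 1) = q * H q m + 1`. -/
def H (q : ℕ) : ℕ → ℕ
  | 0 => 1
  | m + 1 => q * H q m + 1

theorem H_pos (q m : ℕ) : 0 < H q m := by
  cases m <;> simp [H]

theorem H_lt_pow {q : ℕ} (hq : 2 ≤ q) : ∀ m, H q m < q ^ (m + 1)
  | 0 => by simp [H]; omega
  | m + 1 => by
    have ih := H_lt_pow hq m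
    have h1 : H q m + 1 ≤ q ^ (m + 1) := ih
    have h2 : q * (H q m + 1) ≤ q * q ^ (m + 1) := Nat.mul_le_mul_left q h1
    have h3 : q * q ^ (m + 1) = q ^ (m + 1 + 1) := by ring
    simp only [H]
    rw [← h3]
    have h4 : q * (H q m + 1) = q * H q m + q := by ring
    omega

/-- Largest index `k + 1` with a marked property, or `0`. -/
noncomputable def top (n : ℕ) (p : Fin n → Prop) : Fin (n + 1) := by
  classical
  exact (Finset.univ.filter fun j : Fin (n + 1) => j = 0 ∨ ∃ k : Fin n, j = k.succ ∧ p k).max'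
    ⟨0, by simp⟩

theorem top_spec (n : ℕ) (p : Fin n → Prop) :
    (top n p = 0 ∨ ∃ k : Fin n, top n p = k.succ ∧ p k) := by
  classical
  have := Finset.max'_mem
    (Finset.univ.filter fun j : Fin (n + 1) => j = 0 ∨ ∃ k : Fin n, j = k.succ ∧ p k)
    ⟨0, by simp⟩
  simpa [top] using this

theorem le_top (n : ℕ) (p : Fin n → Prop) (k : Fin n) (hk : p k) : k.succ ≤ top n p := by
  classical
  unfold top
  apply Finset.le_max'
  simp only [mem_filter, mem_univ, true_and]
  exact Or.inr ⟨k, rfl, hk⟩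

theorem main_aux {P : Finset α} {χ : α → α → Bool} {T : α → α → α → Prop}
    (hT : ∀ a ∈ P, ∀ b ∈ P, ∀ x ∈ P, ∀ y ∈ P, a < b → b < x → x < y → T a b x → T b x y →
      T a x y)
    (hT' : ∀ a ∈ P, ∀ b ∈ P, ∀ x ∈ P, ∀ y ∈ P, a < b → b < x → x < y → ¬ T a b x →
      ¬ T b x y → ¬ T a x y) (n : ℕ) :
    ∀ (m : ℕ) (S : Finset α) (lam : Bool → Fin n → ℕ), S ⊆ P → (∀ c k, lam c k ≤ n) →
      (∑ c : Bool, ∑ k : Fin n, (n - lam c k) = m) →
      (∀ c k, 1 ≤ lam c k → ∃ u, Ext P χ c T (k.val + 1) u S ∧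
        Ext P χ c (fun a b d => ¬ T a b d) (lam c k) u S) →
      H (2 * (n + 1)) m < S.card →
      ∃ B ⊆ P, B.card = n + 2 ∧ ∃ c, Hom χ c T B ∨ Hom χ c (fun a b d => ¬ T a b d) B := by
  classical
  intro m
  induction m using Nat.strong_induction_on with
  | _ m ih =>
  intro S lam hSP hlam hm hwit hcard
  have hSne : S.Nonempty := by
    rw [← card_pos]; exact lt_trans (H_pos _ _) hcard
  set v := S.min' hSne with hvdef
  have hvS : v ∈ S := min'_mem S hSne
  have hvP : v ∈ P := hSP hvS
  have hRv : ∀ s ∈ S.erase v, v < s := fun s hs =>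
    lt_of_le_of_ne (min'_le S s (mem_of_mem_erase hs)) (ne_of_mem_erase hs).symm
  -- the witnesses
  have : Nonempty α := ⟨v⟩
  choose! wit hwitT hwitF using hwit
  let cls : α → Bool × Fin (n + 1) := fun s =>
    (χ v s, top n fun k => 1 ≤ lam (χ v s) k ∧ T (wit (χ v s) k) v s)
  -- pigeonhole: a class of suitable size
  have hcardR : (S.erase v).card = S.card - 1 := card_erase_of_mem hvS
  have hclass : ∃ y : Bool × Fin (n + 1), 0 < ((S.erase v).filter fun s => cls s = y).card ∧
      (∀ m', m = m' + 1 → H (2 * (n + 1)) m' < ((S.erase v).filter fun s => cls s = y).card) := by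
    rcases Nat.eq_zero_or_pos m with hm0 | hmpos
    · subst hm0
      have h0 : 0 < (S.erase v).card := by
        rw [hcardR]; simp only [H] at hcard; omega
      obtain ⟨s, hs⟩ := card_pos.mp h0
      refine ⟨cls s, card_pos.mpr ⟨s, by simp [mem_filter, hs, mem_of_mem_erase hs,
        ne_of_mem_erase hs]⟩, fun m' hm' => by omega⟩
    · obtain ⟨m', rfl⟩ : ∃ m', m = m' + 1 := ⟨m - 1, by omega⟩
      have h1 : (Finset.univ : Finset (Bool × Fin (n + 1))).card * H (2 * (n + 1)) m' <
          (S.erase v).card := by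
        rw [hcardR, card_univ, Fintype.card_prod, Fintype.card_bool, Fintype.card_fin]
        simp only [H] at hcard
        omega
      obtain ⟨y, -, hy⟩ := exists_lt_card_fiber_of_mul_lt_card_of_maps_to
        (f := cls) (fun a _ => mem_univ (cls a)) h1
      refine ⟨y, lt_of_le_of_lt (Nat.zero_le _) hy, fun m'' hm'' => ?_⟩
      have : m'' = m' := by omega
      subst this
      exact hy
  obtain ⟨⟨c, j⟩, hpos, hbig⟩ := hclass
  set S' := (S.erase v).filter fun s => cls s = (c, j) with hS'def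
  have hS'ne : S'.Nonempty := card_pos.mp hpos
  have hS'S : S' ⊆ S := fun s hs => mem_of_mem_erase (mem_filter.mp hs).1
  have hS'P : S' ⊆ P := hS'S.trans hSP
  have hS'v : ∀ s ∈ S', v < s ∧ χ v s = c := by
    intro s hs
    obtain ⟨h1, h2⟩ := mem_filter.mp hs
    exact ⟨hRv s h1, congrArg Prod.fst h2⟩
  have hS'j : ∀ s ∈ S', top n (fun k => 1 ≤ lam c k ∧ T (wit c k) v s) = j := by
    intro s hs
    obtain ⟨h1, h2⟩ := mem_filter.mp hs
    have h3 := congrArg Prod.fst h2
    have h4 := congrArg Prod.snd h2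
    simp only [cls] at h3 h4
    rw [h3] at h4
    exact h4
  -- the cap label of `v`
  have hK : Ext P χ c T (j.val + 1) v S' := by
    rcases Fin.eq_zero_or_eq_succ j with hj0 | ⟨k, hk⟩
    · rw [hj0]
      exact ext_one hvP hS'v
    · have hkk : ∀ s ∈ S', 1 ≤ lam c k ∧ T (wit c k) v s := by
        intro s hs
        have h1 := top_spec n (fun k => 1 ≤ lam c k ∧ T (wit c k) v s)
        rw [hS'j s hs] at h1
        rcases h1 with h1 | ⟨k', hk', hp⟩
        · rw [hk] at h1; exact absurd h1 (Fin.succ_ne_zero k)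
        · rw [hk] at hk'
          have : k = k' := Fin.succ_injective _ hk'
          rw [this]; exact hp
      obtain ⟨s0, hs0⟩ := hS'ne
      have hlk := (hkk s0 hs0).1
      have := ext_step (v := v) (S' := S') hSP hT (hwitT c k hlk) hvS hS'S
        (fun s hs => ⟨(hS'v s hs).1, (hS'v s hs).2, (hkk s hs).2⟩)
      rw [hk, Fin.val_succ]
      exact this
  by_cases hjn : j.val = n
  · -- the label is `n + 1`: finished
    rw [hjn] at hK
    obtain ⟨B, hB, hBc, hBh⟩ := hK.finish hS'P hS'ne
    exact ⟨B, hB, by rw [hBc], c, Or.inl hBh⟩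
  have hjlt : j.val < n := lt_of_le_of_ne (Nat.lt_succ_iff.mp j.isLt) hjn
  set k : Fin n := ⟨j.val, hjlt⟩ with hkdef
  -- the cup label of `v`
  have hL : Ext P χ c (fun a b d => ¬ T a b d) (lam c k + 1) v S' := by
    rcases Nat.eq_zero_or_pos (lam c k) with h0 | hpos'
    · rw [h0]
      exact ext_one hvP hS'v
    · refine ext_step (v := v) (S' := S') hSP hT' (hwitF c k hpos') hvS hS'S
        (fun s hs => ⟨(hS'v s hs).1, (hS'v s hs).2, ?_⟩)
      intro hTs
      have h1 := le_top n (fun k => 1 ≤ lam c k ∧ T (wit c k) v s) k ⟨hpos', hTs⟩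
      rw [hS'j s hs] at h1
      have h2 : k.succ.val ≤ j.val := h1
      rw [Fin.val_succ] at h2
      simp only [hkdef] at h2
      omega
  by_cases hln : lam c k = n
  · rw [hln] at hL
    obtain ⟨B, hB, hBc, hBh⟩ := hL.finish hS'P hS'ne
    exact ⟨B, hB, by rw [hBc], c, Or.inr hBh⟩
  have hllt : lam c k < n := lt_of_le_of_ne (hlam c k) hln
  -- new state
  let lam' : Bool → Fin n → ℕ := fun c' k' => if c' = c ∧ k' = k then lam c k + 1 else lam c' k'
  have hlam'1 : lam' c k = lam c k + 1 := by simp [lam']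
  have hlam'2 : ∀ c' k', ¬ (c' = c ∧ k' = k) → lam' c' k' = lam c' k' := by
    intro c' k' h; simp [lam', h]
  -- the measure drops by one
  have hsum : ∑ c' : Bool, ∑ k' : Fin n, (n - lam c' k') =
      (∑ c' : Bool, ∑ k' : Fin n, (n - lam' c' k')) + 1 := by
    have e1 : ∀ f : Bool → Fin n → ℕ, ∑ c' : Bool, ∑ k' : Fin n, f c' k' =
        ∑ x : Bool × Fin n, f x.1 x.2 := fun f => (Fintype.sum_prod_type' f).symm
    rw [e1, e1]
    rw [← Finset.add_sum_erase _ _ (mem_univ ((c, k) : Bool × Fin n)),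
      ← Finset.add_sum_erase _ (fun x : Bool × Fin n => n - lam' x.1 x.2)
        (mem_univ ((c, k) : Bool × Fin n))]
    have e2 : ∑ x ∈ (Finset.univ : Finset (Bool × Fin n)).erase (c, k), (n - lam x.1 x.2) =
        ∑ x ∈ (Finset.univ : Finset (Bool × Fin n)).erase (c, k), (n - lam' x.1 x.2) := by
      refine Finset.sum_congr rfl fun x hx => ?_
      have hne : ¬ (x.1 = c ∧ x.2 = k) := by
        intro h
        exact (ne_of_mem_erase hx) (Prod.ext h.1 h.2)
      rw [hlam'2 x.1 x.2 hne]
    rw [e2]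
    simp only [hlam'1]
    omega
  obtain ⟨m', rfl⟩ : ∃ m', m = m' + 1 := ⟨m - 1, by omega⟩
  refine ih m' (by omega) S' lam' hS'P ?_ (by omega) ?_ (hbig m' rfl)
  · intro c' k'
    by_cases h : c' = c ∧ k' = k
    · rw [h.1, h.2, hlam'1]; omega
    · rw [hlam'2 c' k' h]; exact hlam c' k'
  · intro c' k' h1
    by_cases h : c' = c ∧ k' = k
    · obtain ⟨rfl, rfl⟩ := h
      refine ⟨v, ?_, ?_⟩
      · simpa [hkdef] using hK
      · rw [hlam'1]; exact hL
    · rw [hlam'2 c' k' h] at h1 ⊢
      exact ⟨wit c' k', (hwitT c' k' h1).mono hS'S, (hwitF c' k' h1).mono hS'S⟩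

/-- **Main combinatorial theorem.** -/
theorem main {P : Finset α} (χ : α → α → Bool) (T : α → α → α → Prop)
    (hT : ∀ a ∈ P, ∀ b ∈ P, ∀ x ∈ P, ∀ y ∈ P, a < b → b < x → x < y → T a b x → T b x y →
      T a x y)
    (hT' : ∀ a ∈ P, ∀ b ∈ P, ∀ x ∈ P, ∀ y ∈ P, a < b → b < x → x < y → ¬ T a b x →
      ¬ T b x y → ¬ T a x y) (n : ℕ) (hP : (2 * (n + 1)) ^ (2 * n ^ 2 + 1) ≤ P.card) :
    ∃ B ⊆ P, B.card = n + 2 ∧ ∃ c, Hom χ c T B ∨ Hom χ c (fun a b d => ¬ T a b d) B := by
  refine main_aux hT hT' n (2 * n ^ 2) P (fun _ _ => 0) (Subset.refl _) (fun _ _ => Nat.zero_le _)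
    ?_ (fun _ _ h => absurd h (by norm_num)) (lt_of_lt_of_le (H_lt_pow (by omega) _) hP)
  simp [Finset.sum_const, pow_two]

end Run7.h416.HC
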