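import Pool.Agent.Run7.h745.PC_Defs

/-!
# Piece PC_D of project PC (helper745)
-/

set_option autoImplicit false

namespace Pool.Agent.Run7.h416.PC

open scoped BigOperators
open Pool.Agent.Run7.h745.PC

theorem hh_eq_zero {B A : Finset (Fin 4)} {π : P4} {x : P4 → ℝ} (hx : 1 / 25 < x π)
    (h : B.map π.toEmbedding ≠ A) : hh B A x = 0 := by
  unfold hh
  apply Finset.prod_eq_zero (Finset.mem_univ π)
  rw [if_neg h]
  apply max_eq_left
  linarith

theorem val_eq {π : P4} {x : P4 → ℝ} (hx : 1 / 25 < x π) (i : Fin 4) (k : Idx) :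
    tval i x k = sval (π i) x k := by
  rcases k with ⟨B, A⟩ | τ
  · simp only [tval, sval]
    by_cases h : B.map π.toEmbedding = A
    · subst h
      have h1 : π i ∈ B.map π.toEmbedding ↔ i ∈ B := by
        simp
      simp only [h1]
    · rw [hh_eq_zero hx h]
      simp
  · rfl

/-- the open sets -/
def VV (π : P4) : Set XX :=
  {x | Sum.elim (fun z : ZZ => 1 / 25 < z.1 π) (fun _ : WW ⊕ II => π = 1) x}

theorem exists_big (z : ZZ) : ∃ π : P4, 1 / 25 < z.1 π := by
  by_contra hcon
  push Not at hcon
  have h1 : ∑ π : P4, z.1 π ≤ ∑ _π : P4, (1 / 25 : ℝ) := Finset.sum_le_sum fun π _ => hcon π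
  rw [z.2.2, Finset.sum_const, Finset.card_univ, Fintype.card_perm, Fintype.card_fin] at h1
  norm_num [Nat.factorial] at h1

theorem piecewise : PiecewiseConjugate sig tau := by
  refine ⟨Homeomorph.refl XX, VV, ?_, ?_, ?_⟩
  · intro π
    rw [isOpen_sum_iff]
    constructor
    · exact isOpen_lt continuous_const ((continuous_apply π).comp continuous_subtype_val)
    · exact isOpen_const
  · rw [Set.eq_univ_iff_forall]
    intro x
    rw [Set.mem_iUnion]
    rcases x with z | y
    · exact exists_big z
    · exact ⟨1, rfl⟩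
  · intro π x hx i
    rcases x with z | y
    · have hz : 1 / 25 < z.1 π := hx
      show Sum.inr (Sum.inl (tZ i z)) = Sum.inr (Sum.inl (sZ (π i) z))
      have h1 : tZ i z = sZ (π i) z := by
        funext n
        show cl (tval i z.1 (enum n)) = cl (sval (π i) z.1 (enum n))
        rw [val_eq hz]
      rw [h1]
    · have hπ : π = 1 := hx
      subst hπ
      rfl

end Pool.Agent.Run7.h416.PC
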