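import Pool.Agent.Run7.h416.HomChain

/-!
# Caps and cups in the plane (lexicographic order)

For points of `ℝ × ℝ` ordered lexicographically, three points `a < b < d` form a cap or a cup
according to the sign of `cross (b - a) (d - b)`.  In general position both relations are
transitive along increasing quadruples, and a finite set all of whose increasing triples have
the same nonzero sign is in convex position.
-/

open Finset

namespace Run7.h416.PC

/-- the cross product of two vectors of the plane -/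
def cross (u v : ℝ × ℝ) : ℝ := u.1 * v.2 - u.2 * v.1

/-- lexicographically positive vectors -/
def LPos (u : ℝ × ℝ) : Prop := 0 < u.1 ∨ (u.1 = 0 ∧ 0 < u.2)

theorem lpos_of_lt {a b : ℝ ×ₗ ℝ} (h : a < b) : LPos (ofLex b - ofLex a) := by
  rw [Prod.Lex.lt_iff] at h
  rcases h with h | ⟨h1, h2⟩
  · left; simpa using sub_pos.mpr h
  · right
    refine ⟨?_, ?_⟩
    · simp only [Prod.fst_sub]; linarith [h1]
    · simp only [Prod.snd_sub]; linarith [h2]

theorem LPos.ne_zero {u : ℝ × ℝ} (h : LPos u) : u ≠ 0 := by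
  rintro rfl
  rcases h with h | ⟨_, h⟩
  · exact lt_irrefl _ h
  · exact lt_irrefl _ h

/-- transitivity of the slope order on lexicographically positive vectors -/
theorem cross_trans {u v w : ℝ × ℝ} (hu : LPos u) (hv : LPos v) (hw : LPos w)
    (h1 : cross u v < 0) (h2 : cross v w < 0) : cross u w < 0 := by
  unfold cross at *
  rcases hu with hu | ⟨hu0, hu⟩ <;> rcases hv with hv | ⟨hv0, hv⟩ <;> rcases hw with hw | ⟨hw0, hw⟩
  · -- all first coordinates positive
    have e : v.1 * (u.1 * w.2 - u.2 * w.1) =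
        w.1 * (u.1 * v.2 - u.2 * v.1) + u.1 * (v.1 * w.2 - v.2 * w.1) := by ring
    have h3 : w.1 * (u.1 * v.2 - u.2 * v.1) < 0 := mul_neg_of_pos_of_neg hw h1
    have h4 : u.1 * (v.1 * w.2 - v.2 * w.1) < 0 := mul_neg_of_pos_of_neg hu h2
    by_contra hc
    push Not at hc
    have h5 : 0 ≤ v.1 * (u.1 * w.2 - u.2 * w.1) := mul_nonneg hv.le hc
    linarith
  · rw [hw0] at h2 ⊢
    nlinarith
  · rw [hv0] at h1 h2
    nlinarith
  · rw [hv0] at h1 h2
    nlinarith
  · rw [hu0] at h1 ⊢
    have h6 : 0 < u.2 * w.1 := mul_pos hu hw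
    linarith
  · rw [hw0] at h2
    nlinarith
  · rw [hv0, hu0] at h1
    nlinarith
  · rw [hu0, hv0] at h1
    nlinarith

theorem cross_neg' (u v : ℝ × ℝ) : cross v u = - cross u v := by
  unfold cross; ring

theorem cross_trans' {u v w : ℝ × ℝ} (hu : LPos u) (hv : LPos v) (hw : LPos w)
    (h1 : 0 < cross u v) (h2 : 0 < cross v w) : 0 < cross u w := by
  have := cross_trans hw hv hu (by rw [cross_neg']; linarith) (by rw [cross_neg']; linarith)
  rw [cross_neg'] at this
  linarith

theorem cross_add_left (u v w : ℝ × ℝ) : cross (u + v) w = cross u w + cross v w := by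
  unfold cross; simp; ring

/-- caps: `(a, b, x)` and `(b, x, y)` caps give `(a, x, y)` cap -/
theorem cap_trans {a b x y : ℝ ×ₗ ℝ} (hab : a < b) (hbx : b < x) (hxy : x < y)
    (h1 : cross (ofLex b - ofLex a) (ofLex x - ofLex b) < 0)
    (h2 : cross (ofLex x - ofLex b) (ofLex y - ofLex x) < 0) :
    cross (ofLex x - ofLex a) (ofLex y - ofLex x) < 0 := by
  have h3 := cross_trans (lpos_of_lt hab) (lpos_of_lt hbx) (lpos_of_lt hxy) h1 h2
  have e : ofLex x - ofLex a = (ofLex b - ofLex a) + (ofLex x - ofLex b) := by abel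
  rw [e, cross_add_left]
  linarith

theorem cup_trans {a b x y : ℝ ×ₗ ℝ} (hab : a < b) (hbx : b < x) (hxy : x < y)
    (h1 : 0 < cross (ofLex b - ofLex a) (ofLex x - ofLex b))
    (h2 : 0 < cross (ofLex x - ofLex b) (ofLex y - ofLex x)) :
    0 < cross (ofLex x - ofLex a) (ofLex y - ofLex x) := by
  have h3 := cross_trans' (lpos_of_lt hab) (lpos_of_lt hbx) (lpos_of_lt hxy) h1 h2
  have e : ofLex x - ofLex a = (ofLex b - ofLex a) + (ofLex x - ofLex b) := by abel
  rw [e, cross_add_left]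
  linarith

/-- nonnegative combinations of lexicographically positive vectors vanish only trivially -/
theorem sum_lpos {ι : Type*} (s : Finset ι) (w : ι → ℝ) (d : ι → ℝ × ℝ) (hw : ∀ i ∈ s, 0 ≤ w i)
    (hd : ∀ i ∈ s, LPos (d i)) (h0 : ∑ i ∈ s, w i • d i = 0) : ∀ i ∈ s, w i = 0 := by
  have h1 : ∑ i ∈ s, w i * (d i).1 = 0 := by
    have := congrArg Prod.fst h0
    simpa [Prod.fst_sum] using this
  have h2 : ∑ i ∈ s, w i * (d i).2 = 0 := by
    have := congrArg Prod.snd h0
    simpa [Prod.snd_sum] using this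
  have hd1 : ∀ i ∈ s, 0 ≤ (d i).1 := by
    intro i hi
    rcases hd i hi with h | ⟨h, _⟩
    · exact h.le
    · exact h.ge
  have h3 : ∀ i ∈ s, w i * (d i).1 = 0 :=
    (Finset.sum_eq_zero_iff_of_nonneg fun i hi => mul_nonneg (hw i hi) (hd1 i hi)).mp h1
  have h4 : ∀ i ∈ s, 0 ≤ w i * (d i).2 := by
    intro i hi
    rcases hd i hi with h | ⟨_, h⟩
    · have : w i = 0 := by
        rcases mul_eq_zero.mp (h3 i hi) with h5 | h5
        · exact h5
        · exact absurd h5 h.ne'
      rw [this]; simp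
    · exact mul_nonneg (hw i hi) h.le
  have h5 : ∀ i ∈ s, w i * (d i).2 = 0 := (Finset.sum_eq_zero_iff_of_nonneg h4).mp h2
  intro i hi
  rcases hd i hi with h | ⟨_, h⟩
  · rcases mul_eq_zero.mp (h3 i hi) with h6 | h6
    · exact h6
    · exact absurd h6 h.ne'
  · rcases mul_eq_zero.mp (h5 i hi) with h6 | h6
    · exact h6
    · exact absurd h6 h.ne'

theorem cross_sum_left {ι : Type*} (s : Finset ι) (w : ι → ℝ) (d : ι → ℝ × ℝ) (v : ℝ × ℝ) :
    cross (∑ i ∈ s, w i • d i) v = ∑ i ∈ s, w i * cross (d i) v := by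
  unfold cross
  simp only [Prod.fst_sum, Prod.snd_sum, Prod.smul_fst, Prod.smul_snd, smul_eq_mul,
    Finset.sum_mul]
  rw [← Finset.sum_sub_distrib]
  exact Finset.sum_congr rfl fun i _ => by ring

theorem cross_sum_right {ι : Type*} (s : Finset ι) (w : ι → ℝ) (d : ι → ℝ × ℝ) (v : ℝ × ℝ) :
    cross v (∑ i ∈ s, w i • d i) = ∑ i ∈ s, w i * cross v (d i) := by
  rw [← neg_neg (cross v _), ← cross_neg', cross_sum_left, ← Finset.sum_neg_distrib]
  exact Finset.sum_congr rfl fun i _ => by rw [cross_neg' v (d i)]; ring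

/-- A finite set all of whose increasing triples turn in the same strict direction: no point is
in the convex hull of the others.  `ε = 1` for cups, `ε = -1` for caps. -/
theorem notMem_hull {B : Finset (ℝ ×ₗ ℝ)} {ε : ℝ}
    (hB : ∀ a ∈ B, ∀ b ∈ B, ∀ d ∈ B, a < b → b < d →
      0 < ε * cross (ofLex b - ofLex a) (ofLex d - ofLex b))
    {x : ℝ ×ₗ ℝ} (hx : x ∈ B) :
    (ofLex x : ℝ × ℝ) ∉ convexHull ℝ (((B.erase x).image (fun z => (ofLex z : ℝ × ℝ)) :
      Finset (ℝ × ℝ)) : Set (ℝ × ℝ)) := by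
  classical
  intro hmem
  rw [Finset.mem_convexHull'] at hmem
  obtain ⟨w, hw0, hw1, hwx⟩ := hmem
  have hinj : Set.InjOn (fun z : ℝ ×ₗ ℝ => (ofLex z : ℝ × ℝ)) (B.erase x : Set (ℝ ×ₗ ℝ)) :=
    fun a _ b _ h => ofLex.injective h
  rw [Finset.sum_image hinj] at hw1 hwx
  -- weights on `B.erase x`
  set W : ℝ ×ₗ ℝ → ℝ := fun z => w (ofLex z) with hW
  have hW0 : ∀ z ∈ B.erase x, 0 ≤ W z := fun z hz =>
    hw0 _ (mem_image_of_mem _ hz)
  set L := (B.erase x).filter fun z => z < x with hL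
  set R := (B.erase x).filter fun z => ¬ z < x with hR
  have hLx : ∀ z ∈ L, z < x := fun z hz => (mem_filter.mp hz).2
  have hRx : ∀ z ∈ R, x < z := by
    intro z hz
    obtain ⟨h1, h2⟩ := mem_filter.mp hz
    exact lt_of_le_of_ne (not_lt.mp h2) (ne_of_mem_erase h1).symm
  have hLB : ∀ z ∈ L, z ∈ B := fun z hz => mem_of_mem_erase (mem_filter.mp hz).1
  have hRB : ∀ z ∈ R, z ∈ B := fun z hz => mem_of_mem_erase (mem_filter.mp hz).1
  have hWL : ∀ z ∈ L, 0 ≤ W z := fun z hz => hW0 z (mem_filter.mp hz).1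
  have hWR : ∀ z ∈ R, 0 ≤ W z := fun z hz => hW0 z (mem_filter.mp hz).1
  set X : ℝ × ℝ := ∑ z ∈ L, W z • (ofLex x - ofLex z) with hX
  set Y : ℝ × ℝ := ∑ z ∈ R, W z • (ofLex z - ofLex x) with hY
  have hXY : X = Y := by
    have h1 : ∑ z ∈ B.erase x, W z • ((ofLex z : ℝ × ℝ) - ofLex x) = 0 := by
      simp only [smul_sub, Finset.sum_sub_distrib]
      rw [← Finset.sum_smul, hw1, one_smul, sub_eq_zero]
      exact hwx
    have h2 := Finset.sum_filter_add_sum_filter_not (B.erase x) (fun z => z < x)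
      (fun z => W z • ((ofLex z : ℝ × ℝ) - ofLex x))
    rw [h1] at h2
    have h3 : X = - ∑ z ∈ L, W z • ((ofLex z : ℝ × ℝ) - ofLex x) := by
      rw [hX, ← Finset.sum_neg_distrib]
      exact Finset.sum_congr rfl fun z _ => by rw [← smul_neg, neg_sub]
    rw [h3]
    exact neg_eq_of_add_eq_zero_right h2
  have hcross : ∑ z ∈ R, W z * ∑ y ∈ L, W y * (ε * cross (ofLex x - ofLex y)
      (ofLex z - ofLex x)) = 0 := by
    have h1 : ε * cross X Y = 0 := by rw [hXY]; unfold cross; ring
    rw [hY, cross_sum_right, Finset.mul_sum] at h1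
    rw [← h1]
    refine Finset.sum_congr rfl fun z _ => ?_
    rw [hX, cross_sum_left, Finset.mul_sum, Finset.mul_sum, Finset.mul_sum]
    exact Finset.sum_congr rfl fun y _ => by ring
  -- either all weights on the left vanish or all weights on the right vanish
  have hLR : (∀ y ∈ L, W y = 0) ∨ ∀ z ∈ R, W z = 0 := by
    by_contra hcon
    push Not at hcon
    obtain ⟨⟨y, hy, hWy⟩, z, hz, hWz⟩ := hcon
    have hterm : ∀ z ∈ R, ∀ y ∈ L, 0 ≤ W y * (ε * cross (ofLex x - ofLex y)
        (ofLex z - ofLex x)) := fun z hz y hy =>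
      mul_nonneg (hWL y hy) (hB y (hLB y hy) x hx z (hRB z hz) (hLx y hy) (hRx z hz)).le
    have h1 := (Finset.sum_eq_zero_iff_of_nonneg fun z hz =>
      mul_nonneg (hWR z hz) (Finset.sum_nonneg (hterm z hz))).mp hcross z hz
    rcases mul_eq_zero.mp h1 with h2 | h2
    · exact hWz h2
    · have h3 := (Finset.sum_eq_zero_iff_of_nonneg (hterm z hz)).mp h2 y hy
      rcases mul_eq_zero.mp h3 with h4 | h4
      · exact hWy h4
      · exact absurd h4 (hB y (hLB y hy) x hx z (hRB z hz) (hLx y hy) (hRx z hz)).ne'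
  have hL0 : X = 0 ∧ Y = 0 := by
    rcases hLR with h | h
    · have : X = 0 := by
        rw [hX]; exact Finset.sum_eq_zero fun y hy => by rw [h y hy, zero_smul]
      exact ⟨this, hXY ▸ this⟩
    · have : Y = 0 := by
        rw [hY]; exact Finset.sum_eq_zero fun y hy => by rw [h y hy, zero_smul]
      exact ⟨hXY.trans this, this⟩
  have hWL0 := sum_lpos L W (fun z => (ofLex x : ℝ × ℝ) - ofLex z) hWL
    (fun z hz => lpos_of_lt (hLx z hz)) hL0.1
  have hWR0 := sum_lpos R W (fun z => (ofLex z : ℝ × ℝ) - ofLex x) hWR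
    (fun z hz => lpos_of_lt (hRx z hz)) hL0.2
  have h2 := Finset.sum_filter_add_sum_filter_not (B.erase x) (fun z => z < x) W
  rw [Finset.sum_eq_zero hWL0, Finset.sum_eq_zero hWR0] at h2
  have h3 : ∑ z ∈ B.erase x, W z = 1 := hw1
  rw [h3] at h2
  norm_num at h2

/-- three distinct points with vanishing cross product are collinear -/
theorem collinear_of_cross_eq_zero {a b d : ℝ × ℝ} (hab : a ≠ b)
    (h : cross (b - a) (d - b) = 0) : Collinear ℝ {a, b, d} := by
  rw [collinear_iff_of_mem (p₀ := a) (by simp)]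
  refine ⟨b - a, ?_⟩
  have hne : (b - a).1 ≠ 0 ∨ (b - a).2 ≠ 0 := by
    by_contra hcon
    push Not at hcon
    exact hab (sub_eq_zero.mp (Prod.ext hcon.1 hcon.2)).symm
  unfold cross at h
  simp only [Prod.fst_sub, Prod.snd_sub] at h hne
  intro p hp
  simp only [Set.mem_insert_iff, Set.mem_singleton_iff] at hp
  rcases hp with rfl | rfl | rfl
  · exact ⟨0, by simp⟩
  · exact ⟨1, by simp⟩
  · rcases hne with hne | hne
    · refine ⟨(p.1 - a.1) / (b.1 - a.1), Prod.ext ?_ ?_⟩
      · simp; field_simp; ring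
      · simp only [vadd_eq_add, Prod.snd_add, Prod.smul_snd, Prod.snd_sub, smul_eq_mul]
        field_simp
        linarith
    · refine ⟨(p.2 - a.2) / (b.2 - a.2), Prod.ext ?_ ?_⟩
      · simp only [vadd_eq_add, Prod.fst_add, Prod.smul_fst, Prod.fst_sub, smul_eq_mul]
        field_simp
        linarith
      · simp; field_simp; ring

end Run7.h416.PC
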